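import Mathlib
import Pool.Agent.H60.HM.GraphB

/-!
# All bounded-degree trees of large order are harmonious

For every Δ there is N such that every tree T with at least N vertices, every one of degree at
most Δ, is harmonious: with q = |V| - 1 the number of edges there is a map f from the vertices
onto Z_q (so exactly one label is used twice) whose edge sums are pairwise distinct.
-/

set_option autoImplicit false

namespace Pool.Agent.Results.MP_9ddc60_co.BoundedDegreeTrees

theorem result (Δ : ℕ) : ∃ N : ℕ, ∀ (V : Type) [Fintype V] (T : SimpleGraph V), T.IsTree →
    N ≤ Fintype.card V → (∀ v, (T.neighborSet v).ncard ≤ Δ) →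
    ∃ f : V → ZMod (Fintype.card V - 1), Function.Surjective f ∧
      ∀ u v x y, T.Adj u v → T.Adj x y → f u + f v = f x + f y → s(u, v) = s(x, y) :=
  Pool.Agent.H60.HM.graph_all Δ

end Pool.Agent.Results.MP_9ddc60_co.BoundedDegreeTrees
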