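import Pool.Agent.H92.AU.MainLin

/-!
# Trees with one vertex with many leaves are harmonious

Let `v` be a vertex of a finite tree with `n` vertices, `ℓ` the number of leaves attached to `v`, `k` the
number of vertices that are not leaves, and `e = n - k - ℓ` the number of the other leaves.  If
`4 ℓ ≥ min (2 ^ k) (4 ∏ max 1 (2 m_j)) (e + 1) min (e + 3) 14`, where `m_j` is the number of vertices at
distance `j ≥ 1` from `v` that are not leaves, then the tree is harmonious.

Sketch.  Let `H` be the tree without the leaves attached to `v`, with root `v`.  It is enough to find
small integer labels for `H`, with `f v = 0`, which are distinct and such that the edge sums are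
distinct and are labels: the leaves at `v` then get the residues that are not edge sums.

If no vertex other than `v` has two children that are not leaves, this is easier (`AU/CaseA`,
`AU/CaseALin`).  Otherwise let `p` be a deepest vertex with two such children, `m` and `q`.  Below `q`,
at odd distance from `p`, there is a vertex `a` with a child `d` such that all children of `d` are
leaves.

* `AT/Path`: the path from `v` to `a` gets labels with `f p = - f a`, the greatest label being the only
  label that is not an edge sum.
* `AT/Grow2`, `AU/Grow`, `AU/Lev`: the other neighbours of `v` get small labels; all but at most one of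
  the children of `m` are leaves, let `c` be that one, or any child; `c` gets a very small label `- s`.
  Then the other vertices that are not leaves, except `m` and `d`, are added one by one, each edge sum
  being the greatest or the least label `P` or `N` so far, and the new label the new greatest or least
  label; then all leaves at vertices with positive labels and some of the leaves at vertices with
  negative labels, except those at `m` and `d`.
* `AU/Twin`: `m` gets the label `P + s` and `d` the label `P + s + f p`; the edge sum at each of them
  is the label of the other, and the edge `m c` has the sum `P`.
* `AU/Phase`: now `N` is the only label that is not an edge sum.  A leaf at `m` or `d` moves this label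
  down by about `P`, and a few of the remaining leaves at vertices with negative labels then move it up
  by less than `P / 2`; and so on.  The number of leaves used before is chosen such that `P` is just
  large enough for this.
-/

set_option autoImplicit false

namespace Pool.Agent.Results.MP_9ddc60_co.OneLeafyVertex

/-- The leaves attached to `x`. -/
def leavesAt {V : Type} (G : SimpleGraph V) (x : V) : Set V :=
  {y | G.Adj x y ∧ ∀ z, G.Adj y z → z = x}

/-- The vertices with at least two neighbours. -/
def inner {V : Type} (G : SimpleGraph V) : Set V :=
  {x | ∃ y z, y ≠ z ∧ G.Adj x y ∧ G.Adj x z}

theorem result (V : Type) [Fintype V] (G : SimpleGraph V) (hG : G.IsTree) (v : V) (k l e r : ℕ)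
    (hk : k = (inner G).ncard) (hl : l = (leavesAt G v).ncard) (he : Fintype.card V = k + l + e)
    (hr : ∀ x ∈ inner G, G.dist v x ≤ r)
    (hcard : min (2 ^ k) (4 * ∏ j ∈ Finset.range r,
        max 1 (2 * {x | x ∈ inner G ∧ G.dist v x = j + 1}.ncard)) *
      ((e + 1) * min (e + 3) 14) ≤ 4 * l) :
    ∃ f : V → ZMod (Fintype.card V - 1),
      Function.Surjective f ∧
      ∀ a b x y : V, G.Adj a b → G.Adj x y →
        f a + f b = f x + f y → s(a, b) = s(x, y) :=
  Pool.Agent.H92.AU.main_thm2 G hG v k l e r hk hl he
    (fun x y z h1 h2 h3 => hr x ⟨y, z, h1, h2, h3⟩) hcard

end Pool.Agent.Results.MP_9ddc60_co.OneLeafyVertex
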