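import Pool.Agent.H67.Lob.Main

/-!
# Lobsters with many leaves at two vertices are harmonious

Let `p` be a path of odd length from `v` to `w` in a finite tree, such that every vertex is at distance
at most `d` from `p` (`d = 2`: a lobster).  Call the leaves adjacent to `v` or `w` heavy, let `r_j` be
the number of the other vertices at distance at most `j` from `p`.  If `v` and `w` both have at least
`r_1 (1 + r_2 - r_1) … (1 + r_d - r_{d-1})` leaves, then the tree is harmonious.  For lobsters the
bound is `r_1 (1 + n_2)`, `n_2` the number of vertices at distance `2` from `p`.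

The labelling is constructed over the integers: the tree without the heavy leaves gets distinct
integer labels with distinct edge sums, `f v = 0`, `f w = 1`, such that the sorted labels and sums
interlace, `f_1 < s_1 ≤ f_2 < s_2 ≤ … < s_{r-1} ≤ f_r`; this property is inherited when a leaf is
added to any vertex.  The leaves at `w` (label `1`) then fill the gaps between `s_i` and `f_{i+1}`.
-/

set_option autoImplicit false

namespace Pool.Agent.Results.MP_9ddc60_co.TwoLeafyVertices

/-- The leaves attached to `v`, other than `w`. -/
def leavesAt {V : Type} (G : SimpleGraph V) (v w : V) : Set V :=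
  {x | x ≠ w ∧ G.Adj v x ∧ ∀ z, G.Adj x z → z = v}

/-- The vertices at distance at most `j` from the path `p`, without the leaves attached to the two
ends of `p`. -/
def near {V : Type} (G : SimpleGraph V) {v w : V} (p : G.Walk v w) (j : ℕ) : Set V :=
  {x | x ∉ leavesAt G v w ∧ x ∉ leavesAt G w v ∧ ∃ y ∈ p.support, G.dist x y ≤ j}

theorem result (V : Type) [Fintype V] (G : SimpleGraph V) (hG : G.IsTree) (v w : V)
    (p : G.Walk v w) (hp : p.IsPath) (hodd : Odd p.length) (d : ℕ) (hd1 : 1 ≤ d)
    (hd : ∀ x, ∃ y ∈ p.support, G.dist x y ≤ d)
    (hv : (near G p 1).ncard * ∏ i ∈ Finset.Ico 1 d, (1 + (near G p (i + 1) \ near G p i).ncard)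
      ≤ (leavesAt G v w).ncard)
    (hw : (near G p 1).ncard * ∏ i ∈ Finset.Ico 1 d, (1 + (near G p (i + 1) \ near G p i).ncard)
      ≤ (leavesAt G w v).ncard) :
    ∃ f : V → ZMod (Fintype.card V - 1),
      Function.Surjective f ∧
      ∀ a b x y : V, G.Adj a b → G.Adj x y →
        f a + f b = f x + f y → s(a, b) = s(x, y) :=
  Pool.Agent.H67.Lob.main_thm G hG v w p hp hodd d hd1 hd hv hw

end Pool.Agent.Results.MP_9ddc60_co.TwoLeafyVertices
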